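import Pool.Agent.Helper52.NF.St

/-! Project NF, module SPL (splitting a path at a node on it). -/

set_option autoImplicit false

namespace Pool.Agent.Helper68.NF

open Pool.Agent.Helper52.NF Finset

theorem hSPL (h : StL1) : StSPL := by
  intro ε N _ _ α β Q z1 z2 y hloop hP hmin ⟨e, he, hAt⟩
  by_cases hy1 : y = z1
  · subst hy1
    exact ⟨∅, by simp, fun x => by rw [bd_empty, zz]⟩
  by_cases hy2 : y = z2
  · subst hy2
    exact ⟨Q, subset_rfl, hP.2⟩
  obtain ⟨y', hyy', hend⟩ : ∃ y', y' ≠ y ∧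
      ∀ x, pt (α e) x + pt (β e) x = pt y x + pt y' x := by
    have hne := hloop e he
    rcases hAt with ha | hb
    · exact ⟨β e, by rw [← ha]; exact hne.symm, fun x => by rw [ha]⟩
    · exact ⟨α e, by rw [← hb]; exact hne, fun x => by rw [hb, add_comm]⟩
  have hQy : bd α β Q y = 0 := by rw [hP.2, pt_ne hy1, pt_ne hy2, add_zero]
  have hQ'y : bd α β (Q.erase e) y = 1 := by
    rw [bd_erase α β he, hQy, hend, pt_self, pt_ne (Ne.symm hyy'), add_zero, zero_add]
  obtain ⟨Q'', hsub, s, hsy, hs1, hbd⟩ := h ε N α β (Q.erase e) y hQ'y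
  have hsub' : Q'' ⊆ Q := hsub.trans (erase_subset _ _)
  have heQ'' : e ∉ Q'' := fun h => notMem_erase _ _ (hsub h)
  have hsy' : s ≠ y' := by
    rintro rfl
    have hb : ∀ x, bd α β (insert e Q'') x = 0 := fun x => by
      rw [bd_insert α β heQ'', hend, hbd, zz]
    exact insert_ne_empty _ _ (hmin (insert e Q'') (insert_subset he hsub') hb)
  have hQs : bd α β Q s = 1 := by
    rw [bd_erase α β he, hend, pt_ne hsy, pt_ne hsy', add_zero, add_zero] at hs1
    exact hs1
  by_cases hsz1 : s = z1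
  · exact ⟨Q'', hsub', fun x => by rw [hbd, hsz1, add_comm]⟩
  by_cases hsz2 : s = z2
  · refine ⟨Q \ Q'', sdiff_subset, fun x => ?_⟩
    rw [bd_sdiff α β hsub', hP.2, hbd, hsz2]
    have := zz (pt z2 x)
    linear_combination this
  · exfalso
    rw [hP.2, pt_ne hsz1, pt_ne hsz2, add_zero] at hQs
    exact zero_ne_one hQs

end Pool.Agent.Helper68.NF
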